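import Pool.Agent.Lib.MP_49fa77_co.H30.Iface

/-!
# Row HA: ends with a nonnegative angle
-/

set_option autoImplicit false

namespace FT58.AS.H40

open Real MeasureTheory Set intervalIntegral FT58 FT58.AS

/-- Lower bound for the truncated function beyond the angle `θ₁`. -/
lemma mi_low (hPW : PwS) {a θ₁ θ : ℝ} (ha : 0 < a) (hc : cos θ₁ = a) (h0 : 0 ≤ θ₁)
    (h1 : θ₁ ≤ θ) (h2 : θ ≤ π / 2) :
    min (1 + (θ ^ 2 - θ₁ ^ 2)) (4 / 3) ≤ mi a (4 / 3) θ := by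
  by_cases h : cos θ = 0
  · rw [mi_eq_B ha (by norm_num) (by rw [h]; nlinarith)]
    exact min_le_right _ _
  · have hlt : θ < π / 2 := by
      refine lt_of_le_of_ne h2 ?_
      intro e
      exact h (by rw [e]; exact cos_pi_div_two)
    rw [mi_eq_min ha (by norm_num) h, ← hc]
    exact min_le_min (hPW θ₁ θ h0 h1 hlt) le_rfl

/-- Row HA. -/
theorem ha_st (hPW : PwS) : HaS := by
  intro D a ω hD hD1 ha ha1 hω0 hω1 hcos
  set δ : ℝ := 1 - D with hδ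
  have hδ0 : 0 ≤ δ := by rw [hδ]; linarith
  have hδ1 : δ ≤ 1 / 10 := by rw [hδ]; linarith
  have hDδ : D = 1 - δ := by rw [hδ]; ring
  set θ₁ : ℝ := arccos a with hθ₁
  have hc : cos θ₁ = a := cos_arccos (by linarith) ha1
  have ht0 : 0 ≤ θ₁ := arccos_nonneg a
  have ht1 : θ₁ < π / 2 := arccos_lt_pi_div_two.mpr ha
  have hle : θ₁ ≤ ω := by
    have h := arccos_le_arccos hcos
    rwa [arccos_cos hω0 (by linarith [pi_pos])] at h
  -- the value at `θ₁`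
  have hM : ∀ B : ℝ, 1 ≤ B → Mi a B θ₁ = sin (2 * θ₁) / 2 := by
    intro B hB
    have h1 : a ^ 2 ≤ B * cos θ₁ ^ 2 := by rw [hc]; nlinarith [sq_nonneg a]
    rw [Mi_tan_nonneg (by linarith) ht0 ht1 h1, tan_eq_sin_div_cos, hc, sin_two_mul, hc]
    field_simp
  have hH1 : Hh D a θ₁ = -δ * (sin (2 * θ₁) / 2) := by
    unfold Hh
    rw [hM (4 / 3) (by norm_num), hM 1 le_rfl, hDδ]
    ring
  -- the integrand
  set G : ℝ → ℝ := fun θ => D * mi a (4 / 3) θ - mi a 1 θ + δ * cos (2 * θ) with hG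
  have hcont : Continuous G := by
    have h1 : Continuous (mi a (4 / 3)) := mi_continuous ha (by norm_num)
    have h2 : Continuous (mi a 1) := mi_continuous ha (by norm_num)
    rw [hG]
    fun_prop
  have hGi : ∀ x y : ℝ, IntervalIntegrable G volume x y :=
    fun x y => hcont.intervalIntegrable _ _
  have hint : (∫ θ in θ₁..ω, G θ)
      = Hh D a ω - Hh D a θ₁ + δ * (sin (2 * ω) / 2 - sin (2 * θ₁) / 2) := by
    have i1 : IntervalIntegrable (fun θ => D * mi a (4 / 3) θ) volume θ₁ ω :=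
      (mi_intInt ha (by norm_num) _ _).const_mul D
    have i2 : IntervalIntegrable (fun θ => mi a 1 θ) volume θ₁ ω :=
      mi_intInt ha (by norm_num) _ _
    have i3 : IntervalIntegrable (fun θ => δ * cos (2 * θ)) volume θ₁ ω := by
      apply Continuous.intervalIntegrable
      fun_prop
    have e3 : (∫ θ in θ₁..ω, δ * cos (2 * θ)) = δ * (sin (2 * ω) / 2 - sin (2 * θ₁) / 2) := by
      have hd : ∀ x ∈ uIcc θ₁ ω, HasDerivAt (fun x => δ * (sin (2 * x) / 2))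
          (δ * cos (2 * x)) x := by
        intro x _
        have h1 : HasDerivAt (fun x : ℝ => 2 * x) 2 x := by
          simpa using (hasDerivAt_id x).const_mul 2
        have h2 : HasDerivAt (fun x : ℝ => δ * (sin (2 * x) / 2)) (δ * (cos (2 * x) * 2 / 2)) x :=
          ((h1.sin).div_const 2).const_mul δ
        convert h2 using 1
        ring
      rw [integral_eq_sub_of_hasDerivAt hd i3]
      ring
    have hsplit : (∫ θ in θ₁..ω, G θ)
        = (∫ θ in θ₁..ω, D * mi a (4 / 3) θ) - (∫ θ in θ₁..ω, mi a 1 θ)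
          + ∫ θ in θ₁..ω, δ * cos (2 * θ) := by
      rw [← integral_sub i1 i2, ← integral_add (i1.sub i2) i3]
    rw [hsplit, intervalIntegral.integral_const_mul, ← Mi_sub ha (by norm_num) θ₁ ω,
      ← Mi_sub ha (by norm_num) θ₁ ω, e3]
    unfold Hh
    ring
  -- the cut
  set θc : ℝ := min ω (√(θ₁ ^ 2 + 1 / 3)) with hθc
  have hcω : θc ≤ ω := min_le_left _ _
  have h1c : θ₁ ≤ θc := by
    refine le_min hle ?_
    apply le_sqrt_of_sq_le
    linarith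
  have hc0 : 0 ≤ θc := le_trans ht0 h1c
  have hmi1 : ∀ θ, θ₁ ≤ θ → θ ≤ ω → mi a 1 θ = 1 := by
    intro θ h1 h2
    apply mi_eq_B ha (by norm_num)
    have hx : cos θ ≤ cos θ₁ :=
      cos_le_cos_of_nonneg_of_le_pi ht0 (by linarith [pi_pos]) h1
    have hx0 : 0 ≤ cos θ := cos_nonneg_of_mem_Icc ⟨by linarith [pi_pos], by linarith⟩
    rw [hc] at hx
    nlinarith
  have hcos2 : ∀ θ : ℝ, cos (2 * θ) = 1 - 2 * sin θ ^ 2 := by
    intro θ
    rw [cos_two_mul]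
    have := sin_sq_add_cos_sq θ
    linarith
  set s : ℝ := sin θc ^ 2 with hs
  have hG1 : ∀ θ ∈ Icc θ₁ θc, (1 - δ) * (θ ^ 2 - θ₁ ^ 2) - 2 * δ * s ≤ G θ := by
    intro θ hθ
    have h1 := hmi1 θ hθ.1 (le_trans hθ.2 hcω)
    have h2 := mi_low hPW ha hc ht0 hθ.1 (le_trans hθ.2 (le_trans hcω hω1))
    have h3 : θ ^ 2 - θ₁ ^ 2 ≤ 1 / 3 := by
      have h4 : θ ≤ √(θ₁ ^ 2 + 1 / 3) := le_trans hθ.2 (min_le_right _ _)
      have h5 : θ ^ 2 ≤ √(θ₁ ^ 2 + 1 / 3) ^ 2 :=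
        pow_le_pow_left₀ (le_trans ht0 hθ.1) h4 2
      rw [sq_sqrt (by positivity)] at h5
      linarith
    rw [min_eq_left (by linarith)] at h2
    have h6 : sin θ ^ 2 ≤ s := by
      have h7 : sin θ ≤ sin θc :=
        sin_le_sin_of_le_of_le_pi_div_two (by linarith [hθ.1, pi_pos]) (le_trans hcω hω1) hθ.2
      have h8 : 0 ≤ sin θ := sin_nonneg_of_nonneg_of_le_pi (le_trans ht0 hθ.1)
        (by linarith [hθ.2, pi_pos])
      exact pow_le_pow_left₀ h8 h7 2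
    show _ ≤ D * mi a (4 / 3) θ - mi a 1 θ + δ * cos (2 * θ)
    rw [h1, hcos2, hDδ]
    have h9 : (1 - δ) * (1 + (θ ^ 2 - θ₁ ^ 2)) ≤ (1 - δ) * mi a (4 / 3) θ :=
      mul_le_mul_of_nonneg_left h2 (by linarith)
    have h10 : δ * sin θ ^ 2 ≤ δ * s := mul_le_mul_of_nonneg_left h6 hδ0
    linarith
  have hI2 : 0 ≤ ∫ θ in θc..ω, G θ := by
    rcases lt_or_ge ω (√(θ₁ ^ 2 + 1 / 3)) with hlt | hge
    · have e : θc = ω := min_eq_left hlt.le
      rw [e, integral_same]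
    · have e : θc = √(θ₁ ^ 2 + 1 / 3) := min_eq_right hge
      apply integral_nonneg hcω
      intro θ hθ
      have h1θ : θ₁ ≤ θ := le_trans h1c hθ.1
      have h1 := hmi1 θ h1θ hθ.2
      have h2 := mi_low hPW ha hc ht0 h1θ (le_trans hθ.2 hω1)
      have h3 : 1 / 3 ≤ θ ^ 2 - θ₁ ^ 2 := by
        have h4 : √(θ₁ ^ 2 + 1 / 3) ≤ θ := by rw [← e]; exact hθ.1
        have h5 : √(θ₁ ^ 2 + 1 / 3) ^ 2 ≤ θ ^ 2 :=
          pow_le_pow_left₀ (sqrt_nonneg _) h4 2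
        rw [sq_sqrt (by positivity)] at h5
        linarith
      rw [min_eq_right (by linarith)] at h2
      have h6 : sin θ ^ 2 ≤ 1 := sin_sq_le_one θ
      show 0 ≤ D * mi a (4 / 3) θ - mi a 1 θ + δ * cos (2 * θ)
      rw [h1, hcos2, hDδ]
      have h9 : (1 - δ) * (4 / 3) ≤ (1 - δ) * mi a (4 / 3) θ :=
        mul_le_mul_of_nonneg_left h2 (by linarith)
      have h10 : δ * sin θ ^ 2 ≤ δ * 1 := mul_le_mul_of_nonneg_left h6 hδ0
      linarith
  have hI1 : (1 - δ) * ((θc ^ 3 - θ₁ ^ 3) / 3 - θ₁ ^ 2 * (θc - θ₁)) - 2 * δ * s * (θc - θ₁)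
      ≤ ∫ θ in θ₁..θc, G θ := by
    have e : (∫ θ in θ₁..θc, (1 - δ) * (θ ^ 2 - θ₁ ^ 2) - 2 * δ * s)
        = (1 - δ) * ((θc ^ 3 - θ₁ ^ 3) / 3 - θ₁ ^ 2 * (θc - θ₁)) - 2 * δ * s * (θc - θ₁) := by
      have hd : ∀ x ∈ uIcc θ₁ θc, HasDerivAt
          (fun x => (1 - δ) * (x ^ 3 / 3 - θ₁ ^ 2 * x) - 2 * δ * s * x)
          ((1 - δ) * (x ^ 2 - θ₁ ^ 2) - 2 * δ * s) x := by
        intro x _
        have h1 : HasDerivAt (fun x : ℝ => x ^ 3 / 3) (3 * x ^ 2 / 3) x := by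
          simpa using (hasDerivAt_pow 3 x).div_const 3
        have h2 : HasDerivAt (fun x : ℝ => θ₁ ^ 2 * x) (θ₁ ^ 2 * 1) x :=
          (hasDerivAt_id x).const_mul _
        have h3 : HasDerivAt (fun x : ℝ => 2 * δ * s * x) (2 * δ * s * 1) x :=
          (hasDerivAt_id x).const_mul _
        have h4 : HasDerivAt (fun x : ℝ => (1 - δ) * (x ^ 3 / 3 - θ₁ ^ 2 * x) - 2 * δ * s * x)
            ((1 - δ) * (3 * x ^ 2 / 3 - θ₁ ^ 2 * 1) - 2 * δ * s * 1) x :=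
          ((h1.sub h2).const_mul (1 - δ)).sub h3
        refine h4.congr_deriv ?_
        ring
      rw [integral_eq_sub_of_hasDerivAt hd (by apply Continuous.intervalIntegrable; fun_prop)]
      ring
    rw [← e]
    apply integral_mono_on h1c (by apply Continuous.intervalIntegrable; fun_prop) (hGi _ _)
    exact hG1
  have hadd : (∫ θ in θ₁..ω, G θ) = (∫ θ in θ₁..θc, G θ) + ∫ θ in θc..ω, G θ :=
    (integral_add_adjacent_intervals (hGi _ _) (hGi _ _)).symm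
  -- the final inequality
  have hs1 : s ^ 2 ≤ θc := by
    have h1 : 0 ≤ sin θc := sin_nonneg_of_nonneg_of_le_pi hc0 (by linarith [pi_pos])
    have h2 : sin θc ≤ 1 := sin_le_one θc
    have h3 : sin θc ≤ θc := sin_le hc0
    have h4 : s ≤ sin θc := by rw [hs]; nlinarith
    have h5 : 0 ≤ s := by rw [hs]; positivity
    nlinarith
  have hs0 : 0 ≤ s := by rw [hs]; positivity
  set τ : ℝ := θc - θ₁ with hτ
  have hτ0 : 0 ≤ τ := by rw [hτ]; linarith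
  have hid : (θc ^ 3 - θ₁ ^ 3) / 3 - θ₁ ^ 2 * (θc - θ₁) = τ ^ 2 * (θc + 2 * θ₁) / 3 := by
    rw [hτ]; ring
  have hq : 0 ≤ (1 - δ) * (τ ^ 2 * (θc + 2 * θ₁) / 3) - 2 * δ * s * τ + 4 * δ ^ 2 := by
    have h1 : 3 / 10 * (τ ^ 2 * s ^ 2) ≤ (1 - δ) * (τ ^ 2 * (θc + 2 * θ₁) / 3) := by
      have h2 : τ ^ 2 * s ^ 2 ≤ τ ^ 2 * (θc + 2 * θ₁) :=
        mul_le_mul_of_nonneg_left (by linarith) (sq_nonneg τ)
      have h3 : 9 / 10 * (τ ^ 2 * (θc + 2 * θ₁) / 3) ≤ (1 - δ) * (τ ^ 2 * (θc + 2 * θ₁) / 3) := by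
        apply mul_le_mul_of_nonneg_right (by linarith)
        have : 0 ≤ τ ^ 2 * (θc + 2 * θ₁) := mul_nonneg (sq_nonneg τ) (by linarith)
        linarith
      linarith
    nlinarith [sq_nonneg (s * τ / 2 - 2 * δ), sq_nonneg (s * τ)]
  rw [hid] at hI1
  have hfin : Hh D a ω - Hh D a θ₁ + δ * (sin (2 * ω) / 2 - sin (2 * θ₁) / 2)
      ≥ -(4 * δ ^ 2) := by
    rw [← hint, hadd]
    linarith
  rw [hH1] at hfin
  linarith

end FT58.AS.H40
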